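import Mathlib

/-!
# Dense sigma-compact subspaces which are rigid for locally Hölder surjections

Every nonempty `k`-crowded separable metric space `Y` has continuum many dense, `σ`-compact,
`k`-crowded subspaces such that the only locally Hölder continuous surjection between any two of
them is the identity of one of them.  The same holds for any countable family of moduli of
continuity in place of the Hölder moduli.
-/

open Set Filter Topology

namespace Pool.Agent.Results.MP_4aa5c9_gt.HolderRigid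

/-- every nonempty open set contains an uncountable compact set -/
def KCrowded (Z : Type*) [TopologicalSpace Z] : Prop :=
  ∀ U : Set Z, IsOpen U → U.Nonempty → ∃ K ⊆ U, IsCompact K ∧ ¬ K.Countable

/-- every non-expansive bijection is an isometry -/
def IsPlastic (Z : Type*) [MetricSpace Z] : Prop :=
  ∀ f : Z → Z, Function.Bijective f → (∀ x y, dist (f x) (f y) ≤ dist x y) →
    ∀ x y, dist (f x) (f y) = dist x y

/-- Every point has a neighbourhood on which `f` is Hölder continuous, with some constant and some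
positive exponent. -/
def LocallyHolder {A B : Type*} [MetricSpace A] [MetricSpace B] (f : A → B) : Prop :=
  ∀ x, ∃ U ∈ 𝓝 x, ∃ C r : ℝ, 0 < r ∧ ∀ y ∈ U, ∀ z ∈ U, dist (f y) (f z) ≤ C * dist y z ^ r

/-- Every point has a neighbourhood on which one of the functions `ω n` is a modulus of continuity
of `f`. -/
def LocMod (ω : ℕ → ℝ → ℝ) {A B : Type*} [MetricSpace A] [MetricSpace B] (f : A → B) : Prop :=
  ∀ x, ∃ U ∈ 𝓝 x, ∃ n : ℕ, ∀ y ∈ U, ∀ z ∈ U, dist (f y) (f z) ≤ ω n (dist y z)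

abbrev Cn := ℕ → Bool

variable {Y : Type*} [MetricSpace Y]

lemma ucyl {e : Cn → Y} (he : Continuous e) {ε : ℝ} (hε : 0 < ε) :
    ∀ᶠ L in atTop, ∀ x y : Cn, (∀ k < L, x k = y k) → dist (e x) (e y) < ε := by
  suffices h : ∃ L, ∀ x y : Cn, (∀ k < L, x k = y k) → dist (e x) (e y) < ε by
    obtain ⟨L, hL⟩ := h
    filter_upwards [eventually_ge_atTop L] with M hM x y hxy
    exact hL x y fun k hk => hxy k (by omega)
  by_contra h
  push Not at h
  let S : ℕ → Set (Cn × Cn) := fun L =>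
    {p | (∀ k < L, p.1 k = p.2 k) ∧ ε ≤ dist (e p.1) (e p.2)}
  have hc : ∀ L, IsClosed (S L) := fun L => by
    refine IsClosed.inter (s₂ := {p : Cn × Cn | ε ≤ dist (e p.1) (e p.2)})
      (s₁ := {p : Cn × Cn | ∀ k < L, p.1 k = p.2 k}) ?_ (isClosed_le (by fun_prop) (by fun_prop))
    simp only [setOf_forall]
    exact isClosed_iInter fun k => isClosed_iInter fun _ => isClosed_eq (by fun_prop) (by fun_prop)
  obtain ⟨p, hp⟩ := IsCompact.nonempty_iInter_of_sequence_nonempty_isCompact_isClosed S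
    (fun L p hp => ⟨fun k hk => hp.1 k (by omega), hp.2⟩)
    (fun L => by obtain ⟨x, y, h⟩ := h L; exact ⟨(x, y), h⟩) (hc 0).isCompact hc
  rw [mem_iInter] at hp
  have : p.1 = p.2 := funext fun k => (hp (k + 1)).1 k (by omega)
  have h2 := (hp 0).2
  rw [this, dist_self] at h2
  linarith

lemma ucyl' {e : Cn → Y} (he : Continuous e) (hi : Function.Injective e) {w : ℝ → ℝ}
    (hw : Tendsto w (𝓝[>] 0) (𝓝 0)) {ε : ℝ} (hε : 0 < ε) :
    ∀ᶠ L in atTop, ∀ x y : Cn, (∀ k < L, x k = y k) → x ≠ y → w (dist (e x) (e y)) < ε := by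
  obtain ⟨δ, hδ, h⟩ := (mem_nhdsGT_iff_exists_Ioo_subset' (show (0 : ℝ) < 1 by norm_num)).1
    (hw (Iio_mem_nhds hε))
  filter_upwards [ucyl he hδ] with L hL x y hxy hne
  exact h ⟨dist_pos.2 (hi.ne hne), hL x y hxy⟩

lemma nbhd {O : Set Cn} (hO : IsOpen O) {x : Cn} (hx : x ∈ O) :
    ∃ L, ∀ y : Cn, (∀ k < L, y k = x k) → y ∈ O := by
  obtain ⟨I, u, h1, h2⟩ := isOpen_pi_iff.1 hO x hx
  refine ⟨I.sup id + 1, fun y hy => h2 fun a ha => ?_⟩
  have : a ≤ I.sup id := Finset.le_sup (f := id) ha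
  rw [hy a (by omega)]
  exact (h1 a ha).2

lemma sep {e : Cn → Y} (he : Function.Injective e) (m : ℕ) : ∃ ε > 0, ∀ y y' : Cn,
    (∀ k, m ≤ k → y k = false) → (∀ k, m ≤ k → y' k = false) → y ≠ y' → ε ≤ dist (e y) (e y') := by
  have hf : {y : Cn | ∀ k, m ≤ k → y k = false}.Finite := by
    refine Set.Finite.of_finite_image (f := fun y (k : Fin m) => y k) (toFinite _) ?_
    intro y hy y' hy' h
    funext k
    by_cases hk : k < m
    · exact congrFun h ⟨k, hk⟩
    · rw [hy k (by omega), hy' k (by omega)]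
  have : ∀ᶠ ε in 𝓝[>] (0 : ℝ), ∀ y ∈ {y : Cn | ∀ k, m ≤ k → y k = false},
      ∀ y' ∈ {y : Cn | ∀ k, m ≤ k → y k = false}, y ≠ y' → ε ≤ dist (e y) (e y') := by
    refine (eventually_all_finite hf).2 fun y _ => (eventually_all_finite hf).2 fun y' _ => ?_
    by_cases h : y = y'
    · simp [h]
    · have : 0 < dist (e y) (e y') := dist_pos.2 (he.ne h)
      filter_upwards [nhdsWithin_le_nhds (Iic_mem_nhds this)] with ε hε _ using hε
  obtain ⟨ε, h1, h2⟩ := (this.and self_mem_nhdsWithin).exists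
  exact ⟨ε, h2, fun y y' hy hy' => h1 y hy y' hy'⟩

/-- The property of the levels `l n` which drives everything. -/
def Good (ω : ℕ → ℝ → ℝ) (e : ℕ → Cn → Y) (l : ℕ → ℕ) : Prop :=
  ∀ n, 2 * l n + 1 ≤ l (n + 1) ∧ ∀ i ≤ n, ∀ m ≤ n, ∀ x x' : Cn,
      (∀ k < l (n + 1), x k = x' k) → x ≠ x' → ∀ y y' : Cn,
      (∀ k, 2 * l n + 1 ≤ k → y k = false) →
      (∀ k, 2 * l n + 1 ≤ k → y' k = false) → y ≠ y' →
      ω m (dist (e i x) (e i x')) < dist (e n.unpair.1 y) (e n.unpair.1 y')

lemma levels {ω : ℕ → ℝ → ℝ} (hω : ∀ n, Tendsto (ω n) (𝓝[>] 0) (𝓝 0)) {e : ℕ → Cn → Y}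
    (hc : ∀ i, Continuous (e i)) (hi : ∀ i, Function.Injective (e i)) :
    ∃ l : ℕ → ℕ, Good ω e l := by
  have : ∀ n a : ℕ, ∃ b, 2 * a + 1 ≤ b ∧ ∀ i ≤ n, ∀ m ≤ n, ∀ x x' : Cn,
      (∀ k < b, x k = x' k) → x ≠ x' → ∀ y y' : Cn, (∀ k, 2 * a + 1 ≤ k → y k = false) →
      (∀ k, 2 * a + 1 ≤ k → y' k = false) → y ≠ y' →
      ω m (dist (e i x) (e i x')) < dist (e n.unpair.1 y) (e n.unpair.1 y') := by
    intro n a
    obtain ⟨ε, hε, h⟩ := sep (hi n.unpair.1) (2 * a + 1)
    have := (eventually_all_finite (finite_Iic n)).2 fun i _ =>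
      (eventually_all_finite (finite_Iic n)).2 fun m _ => ucyl' (hc i) (hi i) (hω m) hε
    obtain ⟨b, hb1, hb2⟩ := ((eventually_ge_atTop (2 * a + 1)).and this).exists
    exact ⟨b, hb1, fun i hi m hm x x' hx hxx y y' hy hy' hne =>
      (hb2 i hi m hm x x' hx hxx).trans_le (h y y' hy hy' hne)⟩
  choose nx hnx using this
  exact ⟨fun n => Nat.rec 0 nx n, fun n => hnx n _⟩

/-- The thin Cantor set number `j`. -/
def CC (l : ℕ → ℕ) (j : ℕ) : Set Cn :=
  {x | ∀ k, x k = true → ∃ n : ℕ, n.unpair.1 = j ∧ l n ≤ k ∧ k < l (n + 1)}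

lemma CC_closed (l : ℕ → ℕ) (j : ℕ) : IsClosed (CC l j) := by
  rw [CC, setOf_forall]
  refine isClosed_iInter fun k => ?_
  exact (isClosed_discrete {b : Bool | b = true → ∃ n : ℕ, n.unpair.1 = j ∧ l n ≤ k ∧
    k < l (n + 1)}).preimage (continuous_apply (A := fun _ : ℕ => Bool) k)

lemma CC_unc {l : ℕ → ℕ} (hl : StrictMono l) (j : ℕ) : ¬ (CC l j).Countable := by
  classical
  intro h
  let g : Set ℕ → Cn := fun s k => decide (∃ m ∈ s, k = l (Nat.pair j m))
  have hg : Function.Injective g := by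
    have key : ∀ s t, g s = g t → s ⊆ t := by
      intro s t hst m hm
      have := congrFun hst (l (Nat.pair j m))
      simp only [g, decide_eq_decide] at this
      obtain ⟨m', hm', e⟩ := this.1 ⟨m, hm, rfl⟩
      have := (Nat.pair_eq_pair.1 (hl.injective e)).2
      rwa [this]
    exact fun s t h => (key s t h).antisymm (key t s h.symm)
  have hm : ∀ s, g s ∈ CC l j := by
    intro s k hk
    simp only [g, decide_eq_true_eq] at hk
    obtain ⟨m, -, rfl⟩ := hk
    exact ⟨Nat.pair j m, by simp, le_rfl, hl (by omega)⟩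
  have : (univ : Set (Set ℕ)).Countable := (h.preimage_of_injOn (f := g) hg.injOn).mono
    fun s _ => hm s
  rw [countable_univ_iff] at this
  obtain ⟨φ, hφ⟩ := exists_surjective_nat (Set ℕ)
  exact Function.cantor_surjective φ hφ

lemma nocover {ω : ℕ → ℝ → ℝ} {e : ℕ → Cn → Y} {l : ℕ → ℕ} (hl : Good ω e l)
    {i j m : ℕ} (hij : i ≠ j) {x : Cn} (hx : x ∈ CC l j) {O : Set Cn} (hO : IsOpen O) (hxO : x ∈ O)
    (R : Cn → Cn → Prop) (hR : ∀ y ∈ CC l j, y ∈ O → ∃ z ∈ CC l i, R z y)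
    (hR1 : ∀ z y y', R z y → R z y' → y = y')
    (hd : ∀ z y z' y', R z y → R z' y' → dist (e j y) (e j y') ≤ ω m (dist (e i z) (e i z'))) :
    False := by
  have hs : StrictMono l := strictMono_nat_of_lt_succ fun n => by have := (hl n).1; omega
  obtain ⟨L, hL⟩ := nbhd hO hxO
  set n := Nat.pair j (L + i + m) with hn
  have hn1 : n.unpair.1 = j := by simp [hn]
  have hn2 : L + i + m ≤ n := Nat.right_le_pair _ _
  have hn3 : n ≤ l n := hs.le_apply
  obtain ⟨h1, h2⟩ := hl n
  let y : (Fin (l n + 1) → Bool) → Cn := fun σ k =>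
    if k < l n then x k else if h : k - l n < l n + 1 then σ ⟨_, h⟩ else false
  have hy : ∀ σ, y σ ∈ CC l j := by
    intro σ k hk
    simp only [y] at hk
    split_ifs at hk with a b
    · exact hx k hk
    · exact ⟨n, hn1, by omega, by omega⟩
  have hyO : ∀ σ, y σ ∈ O := fun σ => hL _ fun k hk => by simp [y, show k < l n by omega]
  have hy0 : ∀ σ k, 2 * l n + 1 ≤ k → y σ k = false := fun σ k hk => by
    simp only [y]
    rw [if_neg (by omega), dif_neg (by omega)]
  have hyi : Function.Injective y := by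
    intro σ τ h
    funext k
    have := congrFun h (l n + k)
    have hk := k.2
    simp only [y] at this
    rw [if_neg (by omega), dif_pos (by omega), if_neg (by omega), dif_pos (by omega)] at this
    simpa using this
  choose z hz hzR using fun σ => hR _ (hy σ) (hyO σ)
  obtain ⟨σ, τ, hne, heq⟩ := Fintype.exists_ne_map_eq_of_card_lt
    (fun σ (k : Fin (l n)) => z σ k) (by simp [pow_succ])
  have hz0 : ∀ σ k, l n ≤ k → k < l (n + 1) → z σ k = false := by
    intro σ k a b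
    by_contra hk
    obtain ⟨m, e1, e2, e3⟩ := hz σ k (by simpa using hk)
    have : m = n := by
      have u := hs.lt_iff_lt.1 (e2.trans_lt b)
      have v := hs.lt_iff_lt.1 (a.trans_lt e3)
      omega
    exact hij (by rw [← e1, this, hn1])
  have hzz : z σ ≠ z τ := fun h => hyi.ne hne (hR1 _ _ _ (hzR σ) (h ▸ hzR τ))
  have := h2 i (by omega) m (by omega) (z σ) (z τ) (fun k hk => by
    by_cases a : k < l n
    · exact congrFun heq ⟨k, a⟩
    · rw [hz0 σ k (by omega) hk, hz0 τ k (by omega) hk]) hzz (y σ) (y τ) (hy0 σ) (hy0 τ)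
      (hyi.ne hne)
  rw [hn1] at this
  exact absurd (hd _ _ _ _ (hzR σ) (hzR τ)) (not_le.2 this)

/-- The set of indices which belongs to the code `a`. -/
def Idx (a : ℕ → Bool) : Set ℕ := {j | j.unpair.2.bodd = a j.unpair.2.div2}

lemma idx_mem (a : ℕ → Bool) (p : ℕ) : Nat.pair p (Nat.bit (a 0) 0) ∈ Idx a := by
  simp [Idx]

lemma idx_ne {a b : ℕ → Bool} (h : a ≠ b) : ∃ j ∈ Idx b, j ∉ Idx a := by
  obtain ⟨m, hm⟩ := Function.ne_iff.1 h
  refine ⟨Nat.pair 0 (Nat.bit (b m) m), by simp [Idx], ?_⟩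
  simp only [Idx, mem_setOf_eq, Nat.unpair_pair, Nat.bodd_bit, Nat.div2_bit]
  exact fun h => hm h.symm

lemma LocMod.continuous {ω : ℕ → ℝ → ℝ} (hω : ∀ n, Tendsto (ω n) (𝓝[>] 0) (𝓝 0))
    {A B : Type*} [MetricSpace A] [MetricSpace B] {f : A → B} (hf : LocMod ω f) :
    Continuous f := by
  rw [Metric.continuous_iff]
  intro x ε hε
  obtain ⟨U, hU, n, hn⟩ := hf x
  obtain ⟨δ, hδ, h⟩ := (mem_nhdsGT_iff_exists_Ioo_subset' (show (0 : ℝ) < 1 by norm_num)).1
    (hω n (Iio_mem_nhds hε))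
  obtain ⟨δ', hδ', h'⟩ := Metric.mem_nhds_iff.1 hU
  refine ⟨min δ δ', lt_min hδ hδ', fun y hy => ?_⟩
  by_cases hyx : y = x
  · rw [hyx, dist_self]; exact hε
  · exact (hn y (h' (hy.trans_le (min_le_right _ _))) x (mem_of_mem_nhds hU)).trans_lt
      (h ⟨dist_pos.2 hyx, hy.trans_le (min_le_left _ _)⟩)

theorem moduli (Y : Type*) [MetricSpace Y] [TopologicalSpace.SeparableSpace Y] [Nonempty Y]
    (hY : KCrowded Y) (ω : ℕ → ℝ → ℝ) (hω : ∀ n, Tendsto (ω n) (𝓝[>] 0) (𝓝 0)) :
    ∃ X : (ℕ → Bool) → Set Y,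
      (∀ a, Dense (X a) ∧ IsSigmaCompact (X a) ∧ KCrowded (X a)) ∧
      ∀ (a b : ℕ → Bool) (f : X a → X b), Function.Surjective f → LocMod ω f →
        a = b ∧ ∀ x, (f x : Y) = x := by
  haveI : SecondCountableTopology Y := UniformSpace.secondCountable_of_separable Y
  obtain ⟨b, hb1, hb2, hb3⟩ := TopologicalSpace.exists_countable_basis Y
  have hbn : b.Nonempty := by
    obtain ⟨x⟩ := ‹Nonempty Y›
    obtain ⟨t, ht, -⟩ := hb3.exists_subset_of_mem_open (mem_univ x) isOpen_univ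
    exact ⟨t, ht⟩
  obtain ⟨U, rfl⟩ := hb1.exists_eq_range hbn
  have : ∀ j : ℕ, ∃ e : Cn → Y, Continuous e ∧ Function.Injective e ∧ ∀ x, e x ∈ U j.unpair.1 := by
    intro j
    obtain ⟨K, hKU, hK, hu⟩ := hY (U j.unpair.1) (hb3.isOpen ⟨j.unpair.1, rfl⟩)
      (nonempty_iff_ne_empty.2 fun h => hb2 ⟨j.unpair.1, h⟩)
    haveI := isCompact_iff_compactSpace.1 hK
    obtain ⟨f, -, h1, h2⟩ := (isClosed_univ (X := K)).exists_nat_bool_injection_of_not_countable
      (fun h => hu (countable_coe_iff.1 (countable_univ_iff.1 h)))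
    exact ⟨fun x => f x, by fun_prop, Subtype.val_injective.comp h2, fun x => hKU (f x).2⟩
  choose e hc hi hU using this
  obtain ⟨l, hl⟩ := levels hω hc hi
  have hs : StrictMono l := strictMono_nat_of_lt_succ fun n => by have := (hl n).1; omega
  let K : ℕ → Set Y := fun j => e j '' CC l j
  have hK : ∀ j, IsCompact (K j) := fun j => (CC_closed l j).isCompact.image (hc j)
  have hKu : ∀ j, ¬ (K j).Countable := fun j h =>
    CC_unc hs j ((h.preimage_of_injOn (hi j).injOn).mono fun x hx => mem_image_of_mem (e j) hx)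
  let X : (ℕ → Bool) → Set Y := fun a => ⋃ j : Idx a, K j
  have hsub : ∀ a j, j ∈ Idx a → K j ⊆ X a := fun a j hj => subset_iUnion_of_subset ⟨j, hj⟩ subset_rfl
  have hK' : ∀ a j, j ∈ Idx a → IsCompact (Subtype.val ⁻¹' K j : Set (X a)) := fun a j hj => by
    rw [Subtype.isCompact_iff, Subtype.image_preimage_coe, inter_eq_right.2 (hsub a j hj)]
    exact hK j
  have inO : ∀ a, ∀ O : Set Y, IsOpen O → O.Nonempty → ∃ j ∈ Idx a, K j ⊆ O := by
    rintro a O hO ⟨x, hx⟩
    obtain ⟨_, ⟨p, rfl⟩, -, h⟩ := hb3.exists_subset_of_mem_open hx hO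
    refine ⟨_, idx_mem a p, ?_⟩
    rintro _ ⟨y, -, rfl⟩
    have := hU (Nat.pair p (Nat.bit (a 0) 0)) y
    rw [Nat.unpair_pair] at this
    exact h this
  refine ⟨X, fun a => ⟨?_, isSigmaCompact_iUnion_of_isCompact _ fun j => hK j, ?_⟩, ?_⟩
  · refine dense_iff_inter_open.2 fun O hO hn => ?_
    obtain ⟨j, hja, hj⟩ := inO a O hO hn
    have : e j (fun _ => false) ∈ K j := ⟨_, fun k hk => by simp at hk, rfl⟩
    exact ⟨_, hj this, hsub a j hja this⟩
  · rintro W hW ⟨x, hx⟩
    obtain ⟨O, hO, rfl⟩ := isOpen_induced_iff.1 hW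
    obtain ⟨j, hja, hj⟩ := inO a O hO ⟨x, hx⟩
    refine ⟨Subtype.val ⁻¹' K j, fun z hz => hj hz, hK' a j hja, fun h => hKu j ?_⟩
    have := h.image Subtype.val
    rwa [Subtype.image_preimage_coe, inter_eq_right.2 (hsub a j hja)] at this
  · intro a b f hf hmod
    have hfc : Continuous f := hmod.continuous hω
    -- countably many closed balls on which `f` has a modulus
    have hball : ∀ x : X a, ∃ r : ℝ, 0 < r ∧ ∃ n : ℕ, ∀ y ∈ Metric.closedBall x r,
        ∀ z ∈ Metric.closedBall x r, dist (f y) (f z) ≤ ω n (dist y z) := by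
      intro x
      obtain ⟨V, hV, n, hn⟩ := hmod x
      obtain ⟨r, hr, h⟩ := Metric.nhds_basis_closedBall.mem_iff.1 hV
      exact ⟨r, hr, n, fun y hy z hz => hn y (h hy) z (h hz)⟩
    choose r hr ν hν using hball
    obtain ⟨s, hsc, hsu⟩ := TopologicalSpace.countable_cover_nhds
      (fun x : X a => Metric.closedBall_mem_nhds x (hr x))
    haveI : Countable s := hsc.to_subtype
    -- the main step
    have key : ∀ j ∈ Idx b, ∀ w : CC l j, (∃ (_ : j ∈ Idx a) (z : Cn) (hz : e j z ∈ X a),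
        z ∈ CC l j ∧ (f ⟨_, hz⟩ : Y) = e j w) := by
      intro j hjb
      haveI := isCompact_iff_compactSpace.1 (CC_closed l j).isCompact
      let E : CC l j → X b := fun x => ⟨e j x, hsub b j hjb ⟨x, x.2, rfl⟩⟩
      have hE : Continuous E := ((hc j).comp continuous_subtype_val).subtype_mk _
      let P : Idx a × s → Set (X a) := fun q =>
        Subtype.val ⁻¹' K q.1 ∩ Metric.closedBall (q.2 : X a) (r q.2)
      have hP : ∀ q, IsCompact (P q) := fun q => (hK' a q.1 q.1.2).inter_right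
        Metric.isClosed_closedBall
      let F : Idx a × s → Set (CC l j) := fun q => E ⁻¹' (f '' P q)
      have hF : ∀ i, IsClosed (F i) := fun i => ((hP i).image hfc).isClosed.preimage hE
      have hd := dense_iUnion_interior_of_closed hF (eq_univ_of_forall fun x => by
        obtain ⟨z, hz⟩ := hf (E x)
        obtain ⟨i, hi⟩ := mem_iUnion.1 z.2
        have hz2 : z ∈ ⋃ x ∈ s, Metric.closedBall x (r x) := by rw [hsu]; trivial
        simp only [mem_iUnion] at hz2
        obtain ⟨t, hts, hzt⟩ := hz2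
        exact mem_iUnion.2 ⟨(i, ⟨t, hts⟩), z, ⟨hi, hzt⟩, hz⟩)
      have step : ∀ (x : CC l j) (q : Idx a × s), x ∈ interior (F q) → (q.1 : ℕ) = j := by
        intro x q hxi
        by_contra hij
        obtain ⟨O, hO, hOe⟩ := isOpen_induced_iff.1 (isOpen_interior (s := F q))
        refine nocover hl (m := ν q.2) hij x.2 hO (by rw [← hOe] at hxi; exact hxi)
          (fun z y => ∃ h : e q.1 z ∈ X a, (⟨_, h⟩ : X a) ∈ P q ∧ (f ⟨_, h⟩ : Y) = e j y) ?_ ?_ ?_
        · intro y hy hyO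
          have : (⟨y, hy⟩ : CC l j) ∈ interior (F q) := by rw [← hOe]; exact hyO
          obtain ⟨⟨_, hz⟩, ⟨⟨z, hz', rfl⟩, hzb⟩, h⟩ := interior_subset this
          exact ⟨z, hz', hz, ⟨⟨z, hz', rfl⟩, hzb⟩, congrArg Subtype.val h⟩
        · rintro z y y' ⟨h, -, e1⟩ ⟨h', -, e2⟩
          exact hi j (by rw [← e1, ← e2])
        · rintro z y z' y' ⟨h, hp, e1⟩ ⟨h', hp', e2⟩
          rw [← e1, ← e2]
          exact hν q.2 ⟨_, h⟩ hp.2 ⟨_, h'⟩ hp'.2
      have hcl : IsClosed (E ⁻¹' (f '' (Subtype.val ⁻¹' K j : Set (X a))) : Set (CC l j)) ∨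
          j ∉ Idx a := by
        by_cases hja : j ∈ Idx a
        · exact Or.inl (((hK' a j hja).image hfc).isClosed.preimage hE)
        · exact Or.inr hja
      intro w
      have hja : j ∈ Idx a := by
        by_contra hja
        obtain ⟨x, -, hx2⟩ := hd.inter_open_nonempty _ isOpen_univ ⟨w, trivial⟩
        obtain ⟨q, hq⟩ := mem_iUnion.1 hx2
        exact hja (step x q hq ▸ q.1.2)
      have hcl' := hcl.resolve_right (not_not.2 hja)
      have hw : w ∈ (E ⁻¹' (f '' (Subtype.val ⁻¹' K j : Set (X a))) : Set (CC l j)) := by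
        by_contra hcon
        obtain ⟨x, hx1, hx2⟩ := hd.inter_open_nonempty _ hcl'.isOpen_compl ⟨w, hcon⟩
        obtain ⟨q, hq⟩ := mem_iUnion.1 hx2
        have hqj := step x q hq
        apply hx1
        obtain ⟨z, hz, h⟩ := interior_subset hq
        refine ⟨z, ?_, h⟩
        have := hz.1
        rwa [hqj] at this
      obtain ⟨⟨_, hz⟩, ⟨z, hz', rfl⟩, h⟩ := hw
      exact ⟨hja, z, hz, hz', congrArg Subtype.val h⟩
    have zer : ∀ j, (fun _ => false : Cn) ∈ CC l j := fun j k hk => by simp at hk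
    have hab : a = b := by
      by_contra hne
      obtain ⟨j, hjb, hja⟩ := idx_ne hne
      obtain ⟨h, -⟩ := key j hjb ⟨_, zer j⟩
      exact hja h
    refine ⟨hab, fun x => ?_⟩
    refine eq_of_forall_dist_le fun ε hε => ?_
    obtain ⟨δ, hδ, hδ'⟩ := Metric.continuous_iff.1 hfc x (ε / 2) (by positivity)
    obtain ⟨j, hjb, hj⟩ := inO b (Metric.ball (x : Y) (min δ (ε / 2))) Metric.isOpen_ball
      ⟨x, Metric.mem_ball_self (lt_min hδ (by positivity))⟩
    obtain ⟨-, z, hz, hzC, h⟩ := key j hjb ⟨_, zer j⟩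
    have h1 : dist (e j z) (x : Y) < min δ (ε / 2) := hj ⟨z, hzC, rfl⟩
    have h2 : dist (e j (fun _ => false)) (x : Y) < min δ (ε / 2) := hj ⟨_, zer j, rfl⟩
    have h3 := hδ' ⟨_, hz⟩ (h1.trans_le (min_le_left _ _))
    have h4 : dist (f ⟨_, hz⟩ : Y) (f x : Y) < ε / 2 := h3
    rw [h] at h4
    have h5 := dist_triangle_left (f x : Y) (x : Y) (e j (fun _ => false))
    have h6 := h2.trans_le (min_le_right _ _)
    simp only at h4
    linarith

/-- The Hölder moduli. -/
noncomputable def hol (n : ℕ) (t : ℝ) : ℝ := n * t ^ (1 / ((n : ℝ) + 1))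

lemma hol_tendsto (n : ℕ) : Tendsto (hol n) (𝓝[>] 0) (𝓝 0) := by
  have h : ContinuousAt (hol n) 0 := by
    unfold hol
    exact continuousAt_const.mul (Real.continuousAt_rpow_const _ _ (Or.inr (by positivity)))
  have h0 : hol n 0 = 0 := by
    unfold hol
    rw [Real.zero_rpow (by positivity), mul_zero]
  have := h.tendsto
  rw [h0] at this
  exact this.mono_left nhdsWithin_le_nhds

lemma LocallyHolder.locMod {A B : Type*} [MetricSpace A] [MetricSpace B] {f : A → B}
    (hf : LocallyHolder f) : LocMod hol f := by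
  intro x
  obtain ⟨U, hU, C, r, hr, h⟩ := hf x
  obtain ⟨n, hn⟩ := exists_nat_ge (max C (1 / r))
  refine ⟨U ∩ Metric.ball x (1 / 2), inter_mem hU (Metric.ball_mem_nhds x (by norm_num)), n,
    fun y hy z hz => (h y hy.1 z hz.1).trans ?_⟩
  have h1 : dist y z ≤ 1 := by
    have h1 := hy.2
    have h2 := hz.2
    rw [Metric.mem_ball] at h1 h2
    have := dist_triangle_right y z x
    linarith
  have h0 : 0 ≤ dist y z := dist_nonneg
  have hnr : 1 / ((n : ℝ) + 1) ≤ r := by
    rw [div_le_iff₀ (by positivity)]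
    have := (le_max_right _ _).trans hn
    rw [div_le_iff₀ hr] at this
    nlinarith
  have hpos : (0 : ℝ) < 1 / ((n : ℝ) + 1) := by positivity
  unfold hol
  have h2 : dist y z ^ r ≤ dist y z ^ (1 / ((n : ℝ) + 1)) := by
    rcases h0.eq_or_lt with h0 | h0
    · rw [← h0, Real.zero_rpow hr.ne', Real.zero_rpow hpos.ne']
    · exact Real.rpow_le_rpow_of_exponent_ge h0 h1 hnr
  calc C * dist y z ^ r ≤ n * dist y z ^ r :=
        mul_le_mul_of_nonneg_right ((le_max_left _ _).trans hn) (Real.rpow_nonneg h0 _)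
    _ ≤ n * dist y z ^ (1 / ((n : ℝ) + 1)) := mul_le_mul_of_nonneg_left h2 (by positivity)

/-- **Dense sigma-compact subspaces, rigid for locally Hölder surjections.**  Let `Y` be a nonempty
`k`-crowded separable metric space.

(1) There is a family `X a`, `a ∈ 2^ℕ`, of dense, `σ`-compact, `k`-crowded, plastic subspaces of
`Y` such that for all `a, b` every locally Hölder continuous surjection `f : X a → X b` is the
identity and has `a = b`.

(2) For every sequence `ω 0, ω 1, …` of real functions with limit `0` at `0+` there is such a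
family for the surjections `f` for which every point has a neighbourhood on which some `ω n` is a
modulus of continuity of `f`. -/
theorem result (Y : Type*) [MetricSpace Y] [TopologicalSpace.SeparableSpace Y] [Nonempty Y]
    (hY : KCrowded Y) :
    (∃ X : (ℕ → Bool) → Set Y,
      (∀ a, Dense (X a) ∧ IsSigmaCompact (X a) ∧ KCrowded (X a) ∧ IsPlastic (X a)) ∧
      ∀ (a b : ℕ → Bool) (f : X a → X b), Function.Surjective f → LocallyHolder f →
        a = b ∧ ∀ x, (f x : Y) = x) ∧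
    ∀ ω : ℕ → ℝ → ℝ, (∀ n, Tendsto (ω n) (𝓝[>] 0) (𝓝 0)) →
      ∃ X : (ℕ → Bool) → Set Y,
        (∀ a, Dense (X a) ∧ IsSigmaCompact (X a) ∧ KCrowded (X a)) ∧
        ∀ (a b : ℕ → Bool) (f : X a → X b), Function.Surjective f → LocMod ω f →
          a = b ∧ ∀ x, (f x : Y) = x := by
  refine ⟨?_, moduli Y hY⟩
  obtain ⟨X, h1, h2⟩ := moduli Y hY hol hol_tendsto
  refine ⟨X, fun a => ⟨(h1 a).1, (h1 a).2.1, (h1 a).2.2, fun f hf hne x y => ?_⟩,
    fun a b f hf hh => h2 a b f hf hh.locMod⟩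
  have hh : LocallyHolder f := fun x => ⟨univ, univ_mem, 1, 1, one_pos, fun y _ z _ => by
    rw [Real.rpow_one, one_mul]; exact hne y z⟩
  have := (h2 a a f hf.surjective hh.locMod).2
  rw [Subtype.dist_eq, this x, this y]
  rfl

end Pool.Agent.Results.MP_4aa5c9_gt.HolderRigid
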